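import Pool.Agent.MP_515557_an.H11.MBasic

/-! The sector estimate: cost of tails plus cost of heads in one sector. -/

set_option autoImplicit false

open MeasureTheory Set Metric Filter Topology
open scoped ENNReal
open Pool.Agent.MP_515557_an.H11.Mono

namespace Pool.Agent.MP_515557_an.H29

variable {v : ℂ → ℂ} {l : ℂ → ℝ} {M K σ : ℝ} {C : Set ℂ}

theorem norm_neg_one' : ‖(-1 : ℂ)‖ = 1 := by simp

theorem mem_conf_neg (S : Set ℂ) (δ : ℝ) (g : ℂ × ℂ) :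
    g ∈ conf (rot (-1) v) ((fun z => (-1 : ℂ) * z) ⁻¹' C) S δ
      ↔ (-g.2, -g.1) ∈ conf v C S δ := by
  simp only [conf, mem_ofPred_eq, mem_preimage, FF_rot norm_neg_one', neg_one_mul]
  have e1 : -g.1 - -g.2 = g.2 - g.1 := by ring
  have e2 : ‖-g.2 - -g.1‖ = ‖g.1 - g.2‖ := by
    rw [show -g.2 - -g.1 = g.1 - g.2 by ring]
  rw [e1, e2, FF_comm v (-g.2) (-g.1)]
  constructor
  · rintro ⟨a, b, c, d, e⟩
    exact ⟨b, a, fun h => c (neg_injective h).symm, d, e⟩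
  · rintro ⟨a, b, c, d, e⟩
    exact ⟨b, a, fun h => c (by rw [h]), d, e⟩

theorem mem_maxl_neg (S : Set ℂ) {g : ℂ × ℂ}
    (hg : g ∈ maxl (rot (-1) v) ((fun z => (-1 : ℂ) * z) ⁻¹' C) S) :
    (-g.2, -g.1) ∈ maxl v C S := by
  refine ⟨(mem_conf_neg S 0 g).1 hg.1, fun t ht => ?_⟩
  obtain ⟨h1, h2⟩ := hg.2 t ht
  simp only [mem_preimage, FF_rot norm_neg_one', neg_one_mul] at h1 h2
  have e1 : -g.2 - t • (-g.1 - -g.2) = -(g.2 + t • (g.2 - g.1)) := by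
    simp only [Complex.real_smul]; ring
  have e2 : -g.1 + t • (-g.1 - -g.2) = -(g.1 - t • (g.2 - g.1)) := by
    simp only [Complex.real_smul]; ring
  constructor
  · intro hc
    show FF v (-g.2 - t • (-g.1 - -g.2)) (-g.1) ≠ 0
    have hc' : -g.2 - t • (-g.1 - -g.2) ∈ C := hc
    rw [e1] at hc' ⊢
    rw [FF_comm]
    exact h2 hc'
  · intro hc
    show FF v (-g.2) (-g.1 + t • (-g.1 - -g.2)) ≠ 0
    have hc' : -g.1 + t • (-g.1 - -g.2) ∈ C := hc
    rw [e2] at hc' ⊢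
    rw [FF_comm]
    exact h1 hc'

/-- Projection along a positive parameter of a closed condition over a compact set. -/
theorem measurableSet_proj {A : Set (ℂ × ℂ)} (hA : IsCompact A) {P : Set ((ℂ × ℂ) × ℝ)}
    (hP : IsClosed P) : MeasurableSet {g | g ∈ A ∧ ∃ t : ℝ, 0 < t ∧ (g, t) ∈ P} := by
  have e : {g | g ∈ A ∧ ∃ t : ℝ, 0 < t ∧ (g, t) ∈ P}
      = ⋃ n : ℕ, Prod.fst '' ((A ×ˢ Icc (1 / ((n : ℝ) + 1)) ((n : ℝ) + 1)) ∩ P) := by
    ext g
    simp only [mem_ofPred_eq, mem_iUnion, mem_image, mem_inter_iff, mem_prod, mem_Icc]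
    constructor
    · rintro ⟨hg, t, ht, hp⟩
      obtain ⟨n, hn⟩ := exists_nat_gt (t + 1 / t)
      have h1 : 0 < 1 / t := by positivity
      refine ⟨n, (g, t), ⟨⟨hg, ?_, by linarith⟩, hp⟩, rfl⟩
      have h2 : 1 / t ≤ (n : ℝ) + 1 := by linarith
      rw [div_le_iff₀ (by positivity)]
      rw [div_le_iff₀ ht] at h2
      linarith
    · rintro ⟨n, ⟨g', t⟩, ⟨⟨hg, h1, -⟩, hp⟩, rfl⟩
      exact ⟨hg, t, lt_of_lt_of_le (by positivity) h1, hp⟩
  rw [e]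
  refine MeasurableSet.iUnion fun n => ?_
  exact (((hA.prod isCompact_Icc).inter_right hP).image continuous_fst).measurableSet

theorem measurableSet_maxl (h : Data v l M K) (ha : Adm v l σ C) {S : Set ℂ} (hS : IsClosed S) :
    MeasurableSet (maxl v C S) := by
  have hc : IsCompact (conf v C S 0) := isCompact_conf h ha hS (by linarith [ha.pos])
  have hF := continuous_FF h.continuous
  have hC := ha.cpt.isClosed
  have c1 : Continuous fun z : (ℂ × ℂ) × ℝ => z.1.1 - z.2 • (z.1.2 - z.1.1) := by fun_prop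
  have c2 : Continuous fun z : (ℂ × ℂ) × ℝ => z.1.2 + z.2 • (z.1.2 - z.1.1) := by fun_prop
  have p1 : IsClosed {z : (ℂ × ℂ) × ℝ | z.1.1 - z.2 • (z.1.2 - z.1.1) ∈ C ∧
      FF v (z.1.1 - z.2 • (z.1.2 - z.1.1)) z.1.2 = 0} := by
    refine (hC.preimage c1).inter (isClosed_eq ?_ continuous_const)
    exact hF.comp (c1.prodMk (by fun_prop : Continuous fun z : (ℂ × ℂ) × ℝ => z.1.2))
  have p2 : IsClosed {z : (ℂ × ℂ) × ℝ | z.1.2 + z.2 • (z.1.2 - z.1.1) ∈ C ∧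
      FF v z.1.1 (z.1.2 + z.2 • (z.1.2 - z.1.1)) = 0} := by
    refine (hC.preimage c2).inter (isClosed_eq ?_ continuous_const)
    exact hF.comp ((by fun_prop : Continuous fun z : (ℂ × ℂ) × ℝ => z.1.1).prodMk c2)
  have m1 := measurableSet_proj hc p1
  have m2 := measurableSet_proj hc p2
  have e : maxl v C S = conf v C S 0 \
      ({g | g ∈ conf v C S 0 ∧ ∃ t : ℝ, 0 < t ∧ (g, t) ∈ {z : (ℂ × ℂ) × ℝ |
        z.1.1 - z.2 • (z.1.2 - z.1.1) ∈ C ∧ FF v (z.1.1 - z.2 • (z.1.2 - z.1.1)) z.1.2 = 0}} ∪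
      {g | g ∈ conf v C S 0 ∧ ∃ t : ℝ, 0 < t ∧ (g, t) ∈ {z : (ℂ × ℂ) × ℝ |
        z.1.2 + z.2 • (z.1.2 - z.1.1) ∈ C ∧ FF v z.1.1 (z.1.2 + z.2 • (z.1.2 - z.1.1)) = 0}}) := by
    ext g
    constructor
    · intro hg
      refine ⟨hg.1, ?_⟩
      rintro (⟨-, t, ht, h1, h2⟩ | ⟨-, t, ht, h1, h2⟩)
      · exact (hg.2 t ht).1 h1 h2
      · exact (hg.2 t ht).2 h1 h2
    · rintro ⟨hg, hn⟩
      exact ⟨hg, fun t ht => ⟨fun h1 h2 => hn (Or.inl ⟨hg, t, ht, h1, h2⟩),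
        fun h1 h2 => hn (Or.inr ⟨hg, t, ht, h1, h2⟩)⟩⟩
  rw [e]
  exact hc.measurableSet.diff (m1.union m2)

/-- Tails of tight pairs that are close horizontally lie on a steep graph. -/
theorem tails_lip (h : Data v l M K) (ha : Adm v l σ C) {ε κ r : ℝ} {S : Set ℂ} (hε0 : 0 < ε)
    (hε1 : ε ≤ 1) (hκ1 : κ ≤ 1 / 4) (hε : 32 * ε * M ≤ κ * σ) (hS : Sect ε S)
    (hr : 16 * K * r ≤ κ * σ) {g g' : ℂ × ℂ} (hg : g ∈ conf v C S 0) (hg' : g' ∈ conf v C S 0)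
    (hd : |g.1.re - g'.1.re| ≤ r) :
    |g.1.re - g'.1.re| ≤ 32 * M / σ * |g.1.im - g'.1.im| := by
  have hσ := ha.pos
  have hM := h.Mpos
  have hK := h.Kpos
  have hσM : σ ≤ M := (ha.marg _ hg.1).trans (h.le_M _)
  have main : ∀ g g' : ℂ × ℂ, g ∈ conf v C S 0 → g' ∈ conf v C S 0 → g.1.re ≤ g'.1.re →
      g'.1.re - g.1.re ≤ r → g'.1.re - g.1.re ≤ 32 * M / σ * |g'.1.im - g.1.im| := by
    intro g g' hg hg' h0 h1
    by_cases hc : |(g'.1 - g.1).im| ≤ σ / (32 * M) * (g'.1 - g.1).re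
    · have := gap h ha (θ := σ / (32 * M)) (κ := κ) hε0 hε1 (by positivity)
        (by rw [div_le_one (by positivity)]; linarith) hκ1
        (by nlinarith [mul_pos hε0 hM]) (by field_simp; exact le_rfl) hS hg hg'.1
        (by simp only [Complex.sub_re]; linarith) hc
        (by simp only [Complex.sub_re]; nlinarith)
      rw [this]
      simp
    · rw [not_le] at hc
      simp only [Complex.sub_re, Complex.sub_im] at hc
      have e : g'.1.re - g.1.re = 32 * M / σ * (σ / (32 * M) * (g'.1.re - g.1.re)) := by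
        field_simp
      rw [e]
      exact mul_le_mul_of_nonneg_left hc.le (by positivity)
  rcases le_total g.1.re g'.1.re with h0 | h0
  · rw [abs_sub_comm, abs_of_nonneg (by linarith)] at hd ⊢
    rw [abs_sub_comm]
    exact main g g' hg hg' h0 hd
  · rw [abs_of_nonneg (by linarith)] at hd ⊢
    exact main g' g hg' hg h0 hd

theorem heads_lip (h : Data v l M K) (ha : Adm v l σ C) {ε κ r : ℝ} {S : Set ℂ} (hε0 : 0 < ε)
    (hε1 : ε ≤ 1) (hκ1 : κ ≤ 1 / 4) (hε : 32 * ε * M ≤ κ * σ) (hS : Sect ε S)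
    (hr : 16 * K * r ≤ κ * σ) {g g' : ℂ × ℂ} (hg : g ∈ conf v C S 0) (hg' : g' ∈ conf v C S 0)
    (hd : |g.2.re - g'.2.re| ≤ r) :
    |g.2.re - g'.2.re| ≤ 32 * M / σ * |g.2.im - g'.2.im| := by
  have k1 : (-g.2, -g.1) ∈ conf (rot (-1) v) ((fun z => (-1 : ℂ) * z) ⁻¹' C) S 0 := by
    rw [mem_conf_neg]; simpa using hg
  have k2 : (-g'.2, -g'.1) ∈ conf (rot (-1) v) ((fun z => (-1 : ℂ) * z) ⁻¹' C) S 0 := by
    rw [mem_conf_neg]; simpa using hg'
  have e1 : |(-g.2).re - (-g'.2).re| = |g.2.re - g'.2.re| := by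
    rw [Complex.neg_re, Complex.neg_re, abs_sub_comm]
    exact congrArg abs (by ring)
  have e2 : |(-g.2).im - (-g'.2).im| = |g.2.im - g'.2.im| := by
    rw [Complex.neg_im, Complex.neg_im, abs_sub_comm]
    exact congrArg abs (by ring)
  have := tails_lip (h.rot norm_neg_one') (ha.rot norm_neg_one') hε0 hε1 hκ1 hε hS hr k1 k2
    (by show |(-g.2).re - (-g'.2).re| ≤ r; rw [e1]; exact hd)
  have this' : |(-g.2).re - (-g'.2).re| ≤ 32 * M / σ * |(-g.2).im - (-g'.2).im| := this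
  rw [e1, e2] at this'
  exact this'

/-- Cost of all tails from the cost in each slab. -/
theorem tails_cost (hcost : SCost) (h : Data v l M K) (ha : Adm v l σ C) {κ ε r : ℝ} {S : Set ℂ}
    (hκ0 : 0 < κ) (hκ1 : κ ≤ 1 / 10) (hε0 : 0 < ε) (hεκ : ε ≤ κ) (hε : 32 * ε * M ≤ κ * σ)
    (hS : Sect ε S) (hr0 : 0 < r) (hr : 16 * K * r ≤ κ * σ) (I : Finset ℤ) {N : Set ℂ}
    (hN : N.Countable) (T : ℤ → ℤ → Set ℝ) (w : ℤ → ℤ → ℝ) (p : ℤ → ℝ)
    (hcov : ∀ x ∈ C, ∃ i ∈ I, p i < x.re ∧ x.re ≤ p i + r)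
    (hT : ∀ g ∈ maxl v C S, g.1 ∉ N → ∀ i ∈ I, p i < g.1.re → g.1.re ≤ p i + r →
      ∃ j ∈ I, g.1.im ∈ T i j ∧ g.2.re - p i ≤ w i j) (η : ℝ≥0∞) (hη : 0 < η) :
    ∀ᶠ δ in 𝓝[>] (0 : ℝ), ∫⁻ x in Prod.fst '' conf v C S δ, ENNReal.ofReal (l x)
      ≤ ENNReal.ofReal δ * (ENNReal.ofReal (1 + 5 * κ) *
        (∑ i ∈ I, ∑ j ∈ I, ENNReal.ofReal (w i j) * volume (T i j)) + η) := by
  have hη' : 0 < η / (I.card : ℝ≥0∞) := ENNReal.div_pos hη.ne' (ENNReal.natCast_ne_top _)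
  have hnull : ∀ᵐ a : ℝ, a ∉ Complex.im '' N :=
    measure_eq_zero_iff_ae_notMem.1 ((hN.image _).measure_zero _)
  have step : ∀ i ∈ I, ∀ᶠ δ in 𝓝[>] (0 : ℝ),
      ∫⁻ x in (Prod.fst '' conf v C S δ) ∩ {x | p i < x.re ∧ x.re ≤ p i + r}, ENNReal.ofReal (l x)
        ≤ ENNReal.ofReal δ * (ENNReal.ofReal (1 + 5 * κ) *
          (∑ j ∈ I, ENNReal.ofReal (w i j) * volume (T i j)) + η / (I.card : ℝ≥0∞)) := by
    intro i hi
    have hm : ∀ j, Measurable fun a : ℝ =>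
        (toMeasurable volume (T i j)).indicator (fun _ => ENNReal.ofReal (w i j)) a :=
      fun j => measurable_const.indicator (measurableSet_toMeasurable _ _)
    have := hcost v l M K σ κ ε r (p i) C S
      (fun a => ∑ j ∈ I, (toMeasurable volume (T i j)).indicator
        (fun _ => ENNReal.ofReal (w i j)) a) h ha hκ0 hκ1 hε0 hεκ hε hS hr0 hr
      (Finset.measurable_fun_sum _ fun j _ => hm j) ?_ _ hη'
    · rw [lintegral_finsetSum _ fun j _ => hm j] at this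
      simp only [lintegral_indicator_const (measurableSet_toMeasurable _ _),
        measure_toMeasurable] at this
      exact this
    · filter_upwards [hnull] with a haN g hg hga h1 h2
      obtain ⟨j, hj, h3, h4⟩ := hT g hg (fun hc => haN ⟨g.1, hc, hga⟩) i hi h1 h2
      refine le_trans ?_ (Finset.single_le_sum (f := fun j => (toMeasurable volume (T i j)).indicator
        (fun _ => ENNReal.ofReal (w i j)) a) (fun _ _ => zero_le) hj)
      rw [indicator_of_mem (subset_toMeasurable _ _ (hga ▸ h3))]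
      exact ENNReal.ofReal_le_ofReal h4
  filter_upwards [(Filter.eventually_all_finset I).2 step] with δ hδ
  have hsub : Prod.fst '' conf v C S δ ⊆
      ⋃ i ∈ I, (Prod.fst '' conf v C S δ) ∩ {x | p i < x.re ∧ x.re ≤ p i + r} := by
    rintro x ⟨g, hg, rfl⟩
    obtain ⟨i, hi, h1, h2⟩ := hcov g.1 hg.1
    exact mem_biUnion hi ⟨⟨g, hg, rfl⟩, h1, h2⟩
  calc ∫⁻ x in Prod.fst '' conf v C S δ, ENNReal.ofReal (l x)
      = volume.withDensity (fun x => ENNReal.ofReal (l x)) (Prod.fst '' conf v C S δ) :=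
        (withDensity_apply' _ _).symm
    _ ≤ ∑ i ∈ I, volume.withDensity (fun x => ENNReal.ofReal (l x))
          ((Prod.fst '' conf v C S δ) ∩ {x | p i < x.re ∧ x.re ≤ p i + r}) :=
        (measure_mono hsub).trans (measure_biUnion_finset_le _ _)
    _ ≤ ∑ i ∈ I, ENNReal.ofReal δ * (ENNReal.ofReal (1 + 5 * κ) *
          (∑ j ∈ I, ENNReal.ofReal (w i j) * volume (T i j)) + η / (I.card : ℝ≥0∞)) := by
        refine Finset.sum_le_sum fun i hi => ?_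
        rw [withDensity_apply']
        exact hδ i hi
    _ = ENNReal.ofReal δ * (ENNReal.ofReal (1 + 5 * κ) *
          (∑ i ∈ I, ∑ j ∈ I, ENNReal.ofReal (w i j) * volume (T i j))
            + (I.card : ℝ≥0∞) * (η / (I.card : ℝ≥0∞))) := by
        rw [← Finset.mul_sum, Finset.sum_add_distrib, ← Finset.mul_sum, Finset.sum_const,
          nsmul_eq_mul]
    _ ≤ _ := by
        gcongr
        exact ENNReal.mul_div_le

/-- The point with parameter `t` on a segment. -/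
noncomputable def pt (z : (ℂ × ℂ) × ℝ) : ℂ := (1 - z.2) • z.1.1 + z.2 • z.1.2

theorem pt_mem {z : (ℂ × ℂ) × ℝ} (hz : z.2 ∈ Ioo (0 : ℝ) 1) :
    pt z ∈ openSegment ℝ z.1.1 z.1.2 := by
  rw [openSegment_eq_image]
  exact ⟨z.2, hz, rfl⟩

/-- The union of the open segments of a family. -/
def sw (Γ : Set (ℂ × ℂ)) : Set ℂ := pt '' (Γ ×ˢ Ioo (0 : ℝ) 1)

theorem sub_sw {Γ : Set (ℂ × ℂ)} {g : ℂ × ℂ} (hg : g ∈ Γ) : openSegment ℝ g.1 g.2 ⊆ sw Γ := by
  rw [openSegment_eq_image]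
  rintro _ ⟨t, ht, rfl⟩
  exact ⟨(g, t), ⟨hg, ht⟩, rfl⟩

theorem measurableSet_sw {Γ : Set (ℂ × ℂ)} (hΓ : MeasurableSet Γ) (hne : ∀ g ∈ Γ, g.1 ≠ g.2)
    (hd : ∀ g ∈ Γ, ∀ g' ∈ Γ, g ≠ g' →
      Disjoint (openSegment ℝ g.1 g.2) (openSegment ℝ g'.1 g'.2)) : MeasurableSet (sw Γ) := by
  refine (hΓ.prod measurableSet_Ioo).image_of_continuousOn_injOn ?_ ?_
  · refine Continuous.continuousOn ?_
    unfold pt
    fun_prop
  · rintro ⟨g, t⟩ ⟨hg, ht⟩ ⟨g', t'⟩ ⟨hg', ht'⟩ he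
    have hgg : g = g' := by
      by_contra hc
      have h1 : pt (g, t) ∈ openSegment ℝ g.1 g.2 := pt_mem (z := (g, t)) ht
      have h2 : pt (g', t') ∈ openSegment ℝ g'.1 g'.2 := pt_mem (z := (g', t')) ht'
      rw [← he] at h2
      exact disjoint_left.1 (hd g hg g' hg' hc) h1 h2
    subst hgg
    have h3 : (t - t') • (g.2 - g.1) = 0 := by
      have : (1 - t) • g.1 + t • g.2 = (1 - t') • g.1 + t' • g.2 := he
      simp only [Complex.real_smul] at this ⊢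
      push_cast at this ⊢
      linear_combination this
    rcases smul_eq_zero.1 h3 with h4 | h4
    · rw [sub_eq_zero.1 h4]
    · exact absurd (sub_eq_zero.1 h4).symm (hne g hg)

theorem idx_eq {r x : ℝ} (hr : 0 < r) {i j : ℤ} (h1 : (i : ℝ) * r < x) (h2 : x ≤ (i : ℝ) * r + r)
    (h3 : (j : ℝ) * r < x) (h4 : x ≤ (j : ℝ) * r + r) : i = j := by
  have a1 : (i : ℝ) < j + 1 := by
    by_contra hc
    nlinarith [mul_le_mul_of_nonneg_right (not_lt.1 hc) hr.le]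
  have a2 : (j : ℝ) < i + 1 := by
    by_contra hc
    nlinarith [mul_le_mul_of_nonneg_right (not_lt.1 hc) hr.le]
  have b1 : i < j + 1 := by exact_mod_cast a1
  have b2 : j < i + 1 := by exact_mod_cast a2
  exact le_antisymm (Int.lt_add_one_iff.1 b1) (Int.lt_add_one_iff.1 b2)

theorem idx_eq' {r x : ℝ} (hr : 0 < r) {i j : ℤ} (h1 : (i : ℝ) * r ≤ x) (h2 : x < (i : ℝ) * r + r)
    (h3 : (j : ℝ) * r ≤ x) (h4 : x < (j : ℝ) * r + r) : i = j := by
  have a1 : (i : ℝ) < j + 1 := by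
    by_contra hc
    nlinarith [mul_le_mul_of_nonneg_right (not_lt.1 hc) hr.le]
  have a2 : (j : ℝ) < i + 1 := by
    by_contra hc
    nlinarith [mul_le_mul_of_nonneg_right (not_lt.1 hc) hr.le]
  have b1 : i < j + 1 := by exact_mod_cast a1
  have b2 : j < i + 1 := by exact_mod_cast a2
  exact le_antisymm (Int.lt_add_one_iff.1 b1) (Int.lt_add_one_iff.1 b2)

theorem exists_idx {r : ℝ} (hr : 0 < r) (hC : IsCompact C) : ∃ I : Finset ℤ, ∀ x ∈ C,
    (∃ i ∈ I, (i : ℝ) * r < x.re ∧ x.re ≤ (i : ℝ) * r + r) ∧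
    (∃ j ∈ I, (j : ℝ) * r ≤ x.re ∧ x.re < (j : ℝ) * r + r) := by
  obtain ⟨R, hR⟩ := hC.isBounded.exists_norm_le
  obtain ⟨n, hn⟩ := exists_nat_gt (R / r + 2)
  refine ⟨Finset.Icc (-(n : ℤ)) n, fun x hx => ?_⟩
  have hx1 : |x.re| ≤ R := (Complex.abs_re_le_norm x).trans (hR x hx)
  have hx2 : |x.re / r| ≤ R / r := by
    rw [abs_div, abs_of_pos hr]
    exact div_le_div_of_nonneg_right hx1 hr.le
  obtain ⟨hx3, hx4⟩ := abs_le.1 hx2
  have e : x.re = x.re / r * r := by field_simp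
  constructor
  · have c1 := Int.le_ceil (x.re / r)
    have c2 := Int.ceil_lt_add_one (x.re / r)
    refine ⟨⌈x.re / r⌉ - 1, Finset.mem_Icc.2 ⟨?_, ?_⟩, ?_, ?_⟩
    · have : (-(n : ℝ)) ≤ (⌈x.re / r⌉ : ℝ) - 1 := by linarith
      exact_mod_cast this
    · have : (⌈x.re / r⌉ : ℝ) - 1 ≤ (n : ℝ) := by linarith
      exact_mod_cast this
    · push_cast
      nlinarith
    · push_cast
      nlinarith
  · have c1 := Int.floor_le (x.re / r)
    have c2 := Int.lt_floor_add_one (x.re / r)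
    refine ⟨⌊x.re / r⌋, Finset.mem_Icc.2 ⟨?_, ?_⟩, ?_, ?_⟩
    · have : (-(n : ℝ)) ≤ (⌊x.re / r⌋ : ℝ) := by linarith
      exact_mod_cast this
    · have : (⌊x.re / r⌋ : ℝ) ≤ (n : ℝ) := by linarith
      exact_mod_cast this
    · nlinarith
    · nlinarith

/-- A cell of a family of pairs. -/
def cell (Γ : Set (ℂ × ℂ)) (r : ℝ) (i j : ℤ) : Set (ℂ × ℂ) :=
  {g | g ∈ Γ ∧ ((i : ℝ) * r < g.1.re ∧ g.1.re ≤ (i : ℝ) * r + r) ∧
    ((j : ℝ) * r ≤ g.2.re ∧ g.2.re < (j : ℝ) * r + r)}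

theorem measurableSet_cell {Γ : Set (ℂ × ℂ)} (hΓ : MeasurableSet Γ) (r : ℝ) (i j : ℤ) :
    MeasurableSet (cell Γ r i j) := by
  have m1 : Measurable fun g : ℂ × ℂ => g.1.re := by fun_prop
  have m2 : Measurable fun g : ℂ × ℂ => g.2.re := by fun_prop
  exact hΓ.inter (((measurableSet_lt measurable_const m1).inter
    (measurableSet_le m1 measurable_const)).inter
    ((measurableSet_le measurable_const m2).inter (measurableSet_lt m2 measurable_const)))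

theorem const_ineq {κ D r : ℝ} (hκ0 : 0 < κ) (hκ1 : κ ≤ 1 / 10) (hD : 0 < D)
    (hr : r ≤ κ ^ 2 * D) :
    (1 + 5 * κ) * (D + 2 * r) ≤ 2 * (1 + 20 * κ) * ((1 - 4 * κ) * D / 2) := by
  have h1 : (1 + 5 * κ) * (1 + 2 * κ ^ 2) ≤ (1 + 20 * κ) * (1 - 4 * κ) := by
    nlinarith [mul_pos hκ0 hκ0, mul_nonneg (mul_pos hκ0 hκ0).le (sub_nonneg.2 hκ1),
      mul_nonneg hκ0.le (sub_nonneg.2 hκ1)]
  have h2 : (1 + 5 * κ) * (D + 2 * r) ≤ (1 + 5 * κ) * ((1 + 2 * κ ^ 2) * D) :=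
    mul_le_mul_of_nonneg_left (by linarith) (by linarith)
  have h3 := mul_le_mul_of_nonneg_right h1 hD.le
  linarith

/-- The area bound for one cell. -/
theorem cell_area (harea : SArea) (h : Data v l M K) (ha : Adm v l σ C) {κ ε : ℝ} {S : Set ℂ}
    (hκ0 : 0 < κ) (hκ1 : κ ≤ 1 / 10) (hε0 : 0 < ε) (hεκ : ε ≤ κ) (hε : 32 * ε * M ≤ κ * σ)
    (hS : Sect ε S) {r : ℝ} (hr0 : 0 < r) (hr : 16 * K * r ≤ κ ^ 2 * σ) {Γ : Set (ℂ × ℂ)}
    (hΓ : MeasurableSet Γ) (hsub : Γ ⊆ conf v C S 0)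
    (hd : ∀ g ∈ Γ, ∀ g' ∈ Γ, g ≠ g' →
      Disjoint (openSegment ℝ g.1 g.2) (openSegment ℝ g'.1 g'.2)) (i j : ℤ) :
    ENNReal.ofReal (1 + 5 * κ) * (ENNReal.ofReal (((j : ℝ) + 1 - i) * r) *
      (volume ((fun g : ℂ × ℂ => g.1.im) '' cell Γ r i j)
        + volume ((fun g : ℂ × ℂ => g.2.im) '' cell Γ r i j)))
      ≤ ENNReal.ofReal (2 * (1 + 20 * κ)) * volume (sw (cell Γ r i j)) := by
  rcases (cell Γ r i j).eq_empty_or_nonempty with he | ⟨g0, hg0⟩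
  · rw [he]; simp
  have hσ := ha.pos
  have hM := h.Mpos
  have hK := h.Kpos
  have hκ2 : κ ^ 2 ≤ 1 / 100 := by nlinarith
  have hκ3 : κ ^ 2 ≤ κ := by nlinarith
  have hr' : 16 * K * r ≤ κ * σ := hr.trans (mul_le_mul_of_nonneg_right hκ3 hσ.le)
  have hg0c := hsub hg0.1
  have hsl := hS.slope _ hg0c.2.2.2.1
  have hD0 := re_pos_of_slope hε0 hsl (sub_ne_zero.2 hg0c.2.2.1.symm)
  have hlong := conf_long h ha (by linarith : (0 : ℝ) < σ / 2) hg0c
  have hn := norm_le_of_slope (by linarith) hsl hD0.le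
  rw [norm_sub_rev] at hlong
  rw [Complex.sub_re] at hn hD0
  obtain ⟨-, ⟨a1, a2⟩, a3, a4⟩ := hg0
  set D : ℝ := (j : ℝ) * r - ((i : ℝ) * r + r) with hD
  have k1 : σ ≤ 4 * K * (g0.2.re - g0.1.re) := by nlinarith
  have k2 : g0.2.re - g0.1.re ≤ D + 2 * r := by rw [hD]; linarith
  have k3 : 16 * K * r ≤ σ / 100 := by nlinarith
  have k4 : σ ≤ 8 * K * D := by nlinarith [mul_le_mul_of_nonneg_left k2 hK.le]
  have k5 : 0 < D := by
    by_contra hc
    nlinarith [mul_nonneg hK.le (neg_nonneg.2 (not_lt.1 hc))]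
  have k6 : r ≤ κ ^ 2 * D := by
    have : K * r ≤ K * (κ ^ 2 * D) := by
      nlinarith [mul_le_mul_of_nonneg_left k4 (sq_nonneg κ), mul_pos hK hr0]
    exact le_of_mul_le_mul_left this hK
  have hdc : ∀ g ∈ cell Γ r i j, ∀ g' ∈ cell Γ r i j, g ≠ g' →
      Disjoint (openSegment ℝ g.1 g.2) (openSegment ℝ g'.1 g'.2) :=
    fun g hg g' hg' => hd g hg.1 g' hg'.1
  have main := harea (cell Γ r i j) (sw (cell Γ r i j)) ((i : ℝ) * r + r) ((j : ℝ) * r) r ε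
    (32 * M / σ) κ (by linarith) hr0.le hε0.le (by positivity) hκ0 (by linarith)
    (by rw [← mul_div_assoc, div_le_iff₀ hσ]; linarith) k6
    (fun g hg => ⟨by linarith [hg.2.1.1], hg.2.1.2, hg.2.2.1, hg.2.2.2.le,
      hS.slope _ (hsub hg.1).2.2.2.1⟩)
    (fun g hg g' hg' => ⟨tails_lip h ha hε0 (by linarith) (by linarith) hε hS hr' (hsub hg.1)
        (hsub hg'.1) (abs_le.2 ⟨by linarith [hg.2.1.1, hg'.2.1.2],
          by linarith [hg.2.1.2, hg'.2.1.1]⟩),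
      heads_lip h ha hε0 (by linarith) (by linarith) hε hS hr' (hsub hg.1)
        (hsub hg'.1) (abs_le.2 ⟨by linarith [hg.2.2.1, hg'.2.2.2],
          by linarith [hg.2.2.2, hg'.2.2.1]⟩)⟩)
    hdc (measurableSet_sw (measurableSet_cell hΓ r i j) (fun g hg => (hsub hg.1).2.2.1) hdc)
    (fun g hg => sub_sw hg)
  rw [← hD] at main
  refine le_trans ?_ (mul_le_mul_right main _)
  rw [← mul_assoc, ← mul_assoc, ← ENNReal.ofReal_mul (by linarith),
    ← ENNReal.ofReal_mul (by linarith)]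
  refine mul_le_mul_left (ENNReal.ofReal_le_ofReal ?_) _
  have e : ((j : ℝ) + 1 - i) * r = D + 2 * r := by rw [hD]; ring
  rw [e]
  exact const_ineq hκ0 hκ1 k5 k6

theorem sector (hA : SCrossA) (hB : SCrossB) (harea : SArea) (hcost : SCost) : SSector := by
  intro v l M K σ κ ε C S h ha hκ0 hκ1 hε0 hεκ hε hS η hη
  have hσ := ha.pos
  have hK := h.Kpos
  obtain ⟨N, hN, hNc⟩ := hA v l M K σ C h ha
  obtain ⟨r, hr0, hr⟩ : ∃ r : ℝ, 0 < r ∧ 16 * K * r ≤ κ ^ 2 * σ :=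
    ⟨κ ^ 2 * σ / (16 * K), by positivity, by field_simp; exact le_rfl⟩
  have hκ3 : κ ^ 2 ≤ κ := by nlinarith
  have hr' : 16 * K * r ≤ κ * σ := hr.trans (mul_le_mul_of_nonneg_right hκ3 hσ.le)
  obtain ⟨I, hI⟩ := exists_idx hr0 ha.cpt
  set Γ : Set (ℂ × ℂ) := maxl v C S \ N ×ˢ N with hΓdef
  have hΓ : MeasurableSet Γ :=
    (measurableSet_maxl h ha hS.closed).diff (hN.prod hN).measurableSet
  have hsub : Γ ⊆ conf v C S 0 := fun g hg => hg.1.1
  have hd : ∀ g ∈ Γ, ∀ g' ∈ Γ, g ≠ g' →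
      Disjoint (openSegment ℝ g.1 g.2) (openSegment ℝ g'.1 g'.2) := by
    intro g hg g' hg' hne
    refine disjoint_left.2 fun p hp hp' => ?_
    by_cases hc : cr (g.2 - g.1) (g'.2 - g'.1) = 0
    · exact hne (hB v l σ ε C S ha hε0 hS g hg.1 g' hg'.1 hc p hp hp')
    · exact hg.2 (hNc g (conf_mono_set (subset_univ _) hg.1.1) g'
        (conf_mono_set (subset_univ _) hg'.1.1) hc p hp hp')
  have hη2 : 0 < η / 2 := ENNReal.half_pos hη.ne'
  have ct := tails_cost hcost h ha hκ0 hκ1 hε0 hεκ hε hS hr0 hr' I hN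
    (fun i j => (fun g : ℂ × ℂ => g.1.im) '' cell Γ r i j) (fun i j => ((j : ℝ) + 1 - i) * r)
    (fun i => (i : ℝ) * r) (fun x hx => (hI x hx).1) (by
      intro g hg hgN i _ h1 h2
      obtain ⟨j, hj, h3, h4⟩ := (hI g.2 hg.1.2.1).2
      exact ⟨j, hj, ⟨g, ⟨⟨hg, fun hc => hgN hc.1⟩, ⟨h1, h2⟩, h3, h4⟩, rfl⟩, by linarith⟩) _ hη2
  have hN' : ((fun z : ℂ => -z) ⁻¹' N).Countable := hN.preimage neg_injective
  have ch := tails_cost hcost (h.rot norm_neg_one') (ha.rot norm_neg_one') hκ0 hκ1 hε0 hεκ hε hS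
    hr0 hr' I hN'
    (fun j i => (fun a : ℝ => -a) ⁻¹' ((fun g : ℂ × ℂ => g.2.im) '' cell Γ r i j))
    (fun j i => ((j : ℝ) + 1 - i) * r) (fun j => -((j : ℝ) * r + r)) (by
      intro x hx
      obtain ⟨j, hj, h3, h4⟩ := (hI _ hx).2
      simp only [neg_one_mul, Complex.neg_re] at h3 h4
      exact ⟨j, hj, by linarith, by linarith⟩) (by
      intro g hg hgN j _ h1 h2
      have hg' := mem_maxl_neg S hg
      obtain ⟨i, hi, h3, h4⟩ := (hI (-g.2) hg'.1.1).1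
      refine ⟨i, hi, ⟨(-g.2, -g.1), ⟨⟨hg', fun hc => hgN hc.2⟩, ⟨h3, h4⟩, ?_, ?_⟩, rfl⟩, ?_⟩
      · show (j : ℝ) * r ≤ (-g.1).re
        rw [Complex.neg_re]; linarith
      · show (-g.1).re < (j : ℝ) * r + r
        rw [Complex.neg_re]; linarith
      · rw [Complex.neg_re] at h3
        linarith) _ hη2
  have hvol : ∀ T : Set ℝ, volume ((fun a : ℝ => -a) ⁻¹' T) = volume T := fun T =>
    Measure.measure_preimage_neg volume T
  simp only [hvol] at ch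
  rw [Finset.sum_comm] at ch
  have hsum : ∑ q ∈ I ×ˢ I, volume (sw (cell Γ r q.1 q.2)) ≤ volume (swept v C S) := by
    rw [← measure_biUnion_finset]
    · refine measure_mono (iUnion₂_subset fun q _ => ?_)
      rintro _ ⟨z, ⟨hz, ht⟩, rfl⟩
      exact ⟨z.1, hsub hz.1, openSegment_subset_segment _ _ _ (pt_mem ht)⟩
    · intro q _ q' _ hne
      refine disjoint_left.2 ?_
      rintro _ ⟨z, ⟨hz, ht⟩, rfl⟩ ⟨z', ⟨hz', ht'⟩, he⟩
      have hzz : z.1 = z'.1 := by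
        by_contra hc
        have h2 := pt_mem ht'
        rw [he] at h2
        exact disjoint_left.1 (hd z.1 hz.1 z'.1 hz'.1 hc) (pt_mem ht) h2
      rw [← hzz] at hz'
      exact hne (Prod.ext (idx_eq hr0 hz.2.1.1 hz.2.1.2 hz'.2.1.1 hz'.2.1.2)
        (idx_eq' hr0 hz.2.2.1 hz.2.2.2 hz'.2.2.1 hz'.2.2.2))
    · intro q _
      exact measurableSet_sw (measurableSet_cell hΓ r _ _) (fun g hg => (hsub hg.1).2.2.1)
        (fun g hg g' hg' => hd g hg.1 g' hg'.1)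
  have htot : ENNReal.ofReal (1 + 5 * κ) *
      (∑ i ∈ I, ∑ j ∈ I, ENNReal.ofReal (((j : ℝ) + 1 - i) * r) *
        volume ((fun g : ℂ × ℂ => g.1.im) '' cell Γ r i j))
      + ENNReal.ofReal (1 + 5 * κ) *
      (∑ i ∈ I, ∑ j ∈ I, ENNReal.ofReal (((j : ℝ) + 1 - i) * r) *
        volume ((fun g : ℂ × ℂ => g.2.im) '' cell Γ r i j))
      ≤ ENNReal.ofReal (2 * (1 + 20 * κ)) * volume (swept v C S) := by
    refine le_trans ?_ (mul_le_mul_right hsum _)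
    rw [Finset.sum_product, Finset.mul_sum, Finset.mul_sum, Finset.mul_sum,
      ← Finset.sum_add_distrib]
    refine Finset.sum_le_sum fun i _ => ?_
    rw [Finset.mul_sum, Finset.mul_sum, Finset.mul_sum, ← Finset.sum_add_distrib]
    refine Finset.sum_le_sum fun j _ => ?_
    rw [← mul_add, ← mul_add]
    exact cell_area harea h ha hκ0 hκ1 hε0 hεκ hε hS hr0 hr hΓ hsub hd i j
  filter_upwards [ct, ch] with δ h1 h2
  have e : Prod.fst '' conf (rot (-1) v) ((fun z => (-1 : ℂ) * z) ⁻¹' C) S δ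
      = (fun z => (-1 : ℂ) * z) ⁻¹' (Prod.snd '' conf v C S δ) := by
    ext x
    constructor
    · rintro ⟨g, hg, rfl⟩
      exact ⟨(-g.2, -g.1), (mem_conf_neg S δ g).1 hg, by simp⟩
    · rintro ⟨g, hg, he⟩
      refine ⟨(-g.2, -g.1), (mem_conf_neg S δ _).2 (by simpa using hg), ?_⟩
      have he' : g.2 = (-1 : ℂ) * x := he
      show -g.2 = x
      rw [he']; ring
  have hemb : MeasurableEmbedding fun z : ℂ => (-1 : ℂ) * z :=
    (Homeomorph.mulLeft₀ (-1 : ℂ) (by simp)).measurableEmbedding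
  rw [e, (measurePreserving_rot norm_neg_one').setLIntegral_comp_preimage_emb hemb
    (fun x => ENNReal.ofReal (l x))] at h2
  refine (add_le_add h1 h2).trans ?_
  rw [← mul_add]
  refine mul_le_mul_right ?_ _
  rw [add_add_add_comm, ENNReal.add_halves]
  exact add_le_add_left htot _

end Pool.Agent.MP_515557_an.H29
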